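import Pool.Agent.PWI.Scc
import Pool.Agent.PWI.Punc

/-!
# RCV module SccW: simple closed curves and generators

`W = {a_j⁻¹, b_j : 1 ≤ j < g} ∪ {z'_j⁻¹ : j < n}`, `z'_j = (z_0 ... z_{j-1}) z_j (z_0 ... z_{j-1})⁻¹`.
`w b_0 a_0^m` and `b_0 a_0^j w b_0 a_0^(j+1)` are nonseparating simple closed curves for `w = 1` and
`w ∈ W`.
-/

namespace Pool.Agent.RCV

open Pool.Agent.PWI

variable {g n : ℕ}

/-- powers of the twist along `a_0` -/
theorem twA (m : ℤ) : ∃ T : PMod g n, T.1 (sa 0) = sa 0 ∧ T.1 (sb 0) = sb 0 * sa 0 ^ m ∧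
    Fixes T {0} := by
  obtain ⟨A, h1, h2, h3⟩ := exA (g := g) (n := n) 0
  have hinv1 : (A⁻¹).1 (sa 0) = sa 0 := act_inv_eq h1
  have hinv2 : (A⁻¹).1 (sb 0) = sb 0 * (sa 0)⁻¹ := by
    apply act_inv_eq
    rw [map_mul, map_inv, h1, h2]; group
  induction m using Int.induction_on with
  | zero => exact ⟨1, rfl, by simp, fixes_one _⟩
  | succ k ih =>
    obtain ⟨T, t1, t2, t3⟩ := ih
    refine ⟨T * A, ?_, ?_, t3.mul h3⟩
    · rw [act_mul, h1, t1]
    · rw [act_mul, h2, map_mul, t1, t2, mul_assoc, zpow_add, zpow_one]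
  | pred k ih =>
    obtain ⟨T, t1, t2, t3⟩ := ih
    refine ⟨T * A⁻¹, ?_, ?_, t3.mul h3.inv⟩
    · rw [act_mul, hinv1, t1]
    · rw [act_mul, hinv2, map_mul, map_inv, t1, t2, mul_assoc, zpow_sub, zpow_one]

/-- powers of the twist along `b_0` -/
theorem twB (m : ℤ) : ∃ T : PMod g n, T.1 (sa 0) = sa 0 * sb 0 ^ m ∧ T.1 (sb 0) = sb 0 ∧
    Fixes T {0} := by
  obtain ⟨B, h1, h2, h3⟩ := exB (g := g) (n := n) 0
  have hinv2 : (B⁻¹).1 (sb 0) = sb 0 := act_inv_eq h2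
  have hinv1 : (B⁻¹).1 (sa 0) = sa 0 * sb 0 := by
    apply act_inv_eq
    rw [map_mul, h1, h2]; group
  induction m using Int.induction_on with
  | zero => exact ⟨1, by simp, rfl, fixes_one _⟩
  | succ k ih =>
    obtain ⟨T, t1, t2, t3⟩ := ih
    refine ⟨T * B⁻¹, ?_, ?_, t3.mul h3.inv⟩
    · rw [act_mul, hinv1, map_mul, t1, t2, mul_assoc, zpow_add, zpow_one]
    · rw [act_mul, hinv2, t2]
  | pred k ih =>
    obtain ⟨T, t1, t2, t3⟩ := ih
    refine ⟨T * B, ?_, ?_, t3.mul h3⟩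
    · rw [act_mul, h1, map_mul, map_inv, t1, t2, mul_assoc, zpow_sub, zpow_one]
    · rw [act_mul, h2, t2]

/-- moving handle `k` to handle 1, handle 0 fixed -/
theorem mv1 (k : ℕ) (h1 : 1 ≤ k) (hk : k < g) : ∃ T : PMod g n,
    T.1 (sa k) = sa 1 ∧ T.1 (sb k) = sb 1 ∧ T.1 (sa 0) = sa 0 ∧ T.1 (sb 0) = sb 0 := by
  induction k, h1 using Nat.le_induction with
  | base => exact ⟨1, rfl, rfl, rfl, rfl⟩
  | succ k h1 ih =>
    obtain ⟨T, t1, t2, t3, t4⟩ := ih (by omega)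
    obtain ⟨S, _, _, s3, s4, s5⟩ := exS (g := g) (n := n) k (by omega) _ rfl
    have h0 : (0 : ℕ) ∉ ({k, k + 1} : Set ℕ) := by
      simp only [Set.mem_insert_iff, Set.mem_singleton_iff]; omega
    refine ⟨T * S, ?_, ?_, ?_, ?_⟩
    · rw [act_mul, s3, t1]
    · rw [act_mul, s4, t2]
    · rw [act_mul, (s5.1 0 h0).1, t3]
    · rw [act_mul, (s5.1 0 h0).2, t4]

/-- moving handle `k` to handle 0 -/
theorem mv0 (k : ℕ) (hk : k < g) : ∃ T : PMod g n,
    T.1 (sa k) = sa 0 ∧ T.1 (sb k) = sb 0 ∧ ∀ j, T.1 (sz j) = sz j := by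
  induction k with
  | zero => exact ⟨1, rfl, rfl, fun _ => rfl⟩
  | succ k ih =>
    obtain ⟨T, t1, t2, t3⟩ := ih (by omega)
    obtain ⟨S, _, _, s3, s4, s5⟩ := exS (g := g) (n := n) k (by omega) _ rfl
    refine ⟨T * S, ?_, ?_, fun j => ?_⟩
    · rw [act_mul, s3, t1]
    · rw [act_mul, s4, t2]
    · rw [act_mul, s5.2, t3]

/-- the product `z_0 ... z_(j-1)` -/
def wz (j : ℕ) : SG g n := ((List.range j).map (fun k => (sz k : SG g n))).prod

/-- the loop around puncture `j` in another position -/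
def zp (j : ℕ) : SG g n := wz j * sz j * (wz j)⁻¹

theorem fix_list {T : PMod g n} {j : ℕ} (hT : ∀ k, k < j → T.1 (sz k) = sz k) :
    T.1 (wz j) = wz j := by
  unfold wz
  rw [map_list_prod, List.map_map]
  congr 1
  apply List.map_congr_left
  intro k hk
  exact hT k (List.mem_range.1 hk)

theorem fix_zp {T : PMod g n} (hT : ∀ k, T.1 (sz k) = sz k) (j : ℕ) : T.1 (zp j) = zp j := by
  unfold zp
  rw [map_mul, map_mul, map_inv, fix_list fun k _ => hT k, hT]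

theorem isS_zp (hg : 2 ≤ g) (j : ℕ) (hj : j < n) : IsS ((zp j)⁻¹ * sb 0 : SG g n) := by
  obtain ⟨T, t1, t2, t3, t4, t5⟩ := exE (g := g) (n := n) (by omega) j hj (wz j)
    ((sb (g - 1))⁻¹ * (wz j * sz j * (wz j)⁻¹)) rfl rfl
  set e : SG g n := (sb (g - 1))⁻¹ * (wz j * sz j * (wz j)⁻¹) with he
  have hw : T.1 (wz j) = wz j := fix_list fun k hk => t4 k (by omega)
  have hTe : T.1 e = e := by
    conv_lhs => rw [he]
    rw [map_mul, map_inv, map_mul, map_mul, map_inv, t2, t5, hw]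
    have : (e * sb (g - 1) * e⁻¹)⁻¹ *
        (wz j * ((wz j)⁻¹ * e * wz j * sz j * ((wz j)⁻¹ * e * wz j)⁻¹) * (wz j)⁻¹) =
        e * ((sb (g - 1))⁻¹ * (wz j * sz j * (wz j)⁻¹)) * e⁻¹ := by group
    rw [this, ← he]; group
  obtain ⟨U, u1, u2, u3⟩ := mv0 (g := g) (n := n) (g - 1) (by omega)
  have s0 : IsS (sa (g - 1) : SG g n) := isS_of_act U (by rw [u1]; exact isS_a0)
  have s1 : IsS (sa (g - 1) * e : SG g n) := by
    apply isS_of_act T
    rw [map_mul, t1, hTe]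
    have : sa (g - 1) * e⁻¹ * e = (sa (g - 1) : SG g n) := by group
    rw [this]; exact s0
  obtain ⟨B, b1, b2, b3⟩ := exB (g := g) (n := n) (g - 1)
  have s2 : IsS (sa (g - 1) * zp j : SG g n) := by
    apply isS_of_act B
    rw [map_mul, b1, fix_zp b3.2]
    have : sa (g - 1) * (sb (g - 1))⁻¹ * zp j = sa (g - 1) * e := by
      rw [he, zp]; group
    rw [this]; exact s1
  have s3 : IsS (sa 0 * zp j : SG g n) := by
    have := s2.act U
    rwa [map_mul, u1, fix_zp u3] at this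
  obtain ⟨A0, a1, a2, a3⟩ := exA (g := g) (n := n) 0
  obtain ⟨B0, c1, c2, c3⟩ := exB (g := g) (n := n) 0
  have s4 : IsS ((sb 0)⁻¹ * zp j : SG g n) := by
    have := (s3.act B0).act A0
    rw [map_mul, c1, fix_zp c3.2, map_mul, map_mul, map_inv, a1, a2, fix_zp a3.2] at this
    have e1 : sa 0 * (sb 0 * sa 0)⁻¹ * zp j = ((sb 0)⁻¹ * zp j : SG g n) := by group
    rwa [e1] at this
  have s5 := isS_inv s4
  have e2 : ((sb 0)⁻¹ * zp j : SG g n)⁻¹ = (zp j)⁻¹ * sb 0 := by group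
  rwa [e2] at s5

theorem isS_a1b0 (hg : 2 ≤ g) : IsS ((sa 1)⁻¹ * sb 0 : SG g n) := by
  obtain ⟨A1, a1, a2, a3⟩ := exA (g := g) (n := n) 1
  obtain ⟨B1, b1, b2, b3⟩ := exB (g := g) (n := n) 1
  have n01 : (0 : ℕ) ∉ ({1} : Set ℕ) := by simp
  have s1 : IsS (sb 0 * (sa 1)⁻¹ : SG g n) := by
    apply isS_of_act (A1 * B1)
    rw [act_mul, map_mul, map_inv, b1, (b3.1 0 n01).2, map_mul, map_inv, map_mul, map_inv, a1, a2,
      (a3.1 0 n01).2]
    have e : sb 0 * (sa 1 * (sb 1 * sa 1)⁻¹)⁻¹ = (sb 0 * sb 1 : SG g n) := by group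
    rw [e]; exact isS_b0b1 hg
  have s2 := s1.conj (sb 0)⁻¹
  have e : (sb 0)⁻¹ * (sb 0 * (sa 1)⁻¹) * (sb 0)⁻¹⁻¹ = ((sa 1)⁻¹ * sb 0 : SG g n) := by group
  rwa [e] at s2

theorem isS_b1b0 (hg : 2 ≤ g) : IsS (sb 1 * sb 0 : SG g n) := by
  have s2 := (isS_b0b1 (n := n) hg).conj (sb 0)⁻¹
  have e : (sb 0)⁻¹ * (sb 0 * sb 1) * (sb 0)⁻¹⁻¹ = (sb 1 * sb 0 : SG g n) := by group
  rwa [e] at s2

/-- the additional generators -/
def WW (g n : ℕ) : Set (SG g n) :=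
  {x | ∃ k, 1 ≤ k ∧ k < g ∧ (x = (sa k)⁻¹ ∨ x = sb k)} ∪ {x | ∃ j, j < n ∧ x = (zp j)⁻¹}

theorem ww_fix {T : PMod g n} (hT : Fixes T {0}) : ∀ w ∈ insert 1 (WW g n), T.1 w = w := by
  rintro w (rfl | ⟨k, h1, _, rfl | rfl⟩ | ⟨j, _, rfl⟩)
  · exact map_one _
  · rw [map_inv, (hT.1 k (by simp; omega)).1]
  · exact (hT.1 k (by simp; omega)).2
  · rw [map_inv, fix_zp hT.2]

theorem ww_isS (hg : 2 ≤ g) : ∀ w ∈ insert 1 (WW g n), IsS (w * sb 0) := by
  rintro w (rfl | ⟨k, h1, h2, rfl | rfl⟩ | ⟨j, hj, rfl⟩)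
  · rw [one_mul]; exact isS_b0
  · obtain ⟨T, t1, t2, t3, t4⟩ := mv1 (g := g) (n := n) k h1 h2
    apply isS_of_act T
    rw [map_mul, map_inv, t1, t4]
    exact isS_a1b0 hg
  · obtain ⟨T, t1, t2, t3, t4⟩ := mv1 (g := g) (n := n) k h1 h2
    apply isS_of_act T
    rw [map_mul, t2, t4]
    exact isS_b1b0 hg
  · exact isS_zp hg j hj

theorem ww_gen : Subgroup.closure ({sa 0, sb 0} ∪ WW g n) = ⊤ := by
  set C : Subgroup (SG g n) := Subgroup.closure ({sa 0, sb 0} ∪ WW g n) with hC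
  have hsub : ∀ x ∈ ({sa 0, sb 0} ∪ WW g n : Set (SG g n)), x ∈ C :=
    fun x hx => Subgroup.subset_closure hx
  have ha : ∀ k, sa k ∈ C := by
    intro k
    rcases Nat.eq_zero_or_pos k with rfl | hk
    · exact hsub _ (Or.inl (by simp))
    · rcases lt_or_ge k g with h | h
      · have := C.inv_mem (hsub (sa k)⁻¹ (Or.inr (Or.inl ⟨k, hk, h, Or.inl rfl⟩)))
        rwa [inv_inv] at this
      · rw [sa_big h]; exact C.one_mem
  have hb : ∀ k, sb k ∈ C := by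
    intro k
    rcases Nat.eq_zero_or_pos k with rfl | hk
    · exact hsub _ (Or.inl (by simp))
    · rcases lt_or_ge k g with h | h
      · exact hsub (sb k) (Or.inr (Or.inl ⟨k, hk, h, Or.inr rfl⟩))
      · rw [sb_big h]; exact C.one_mem
  have hz : ∀ j, sz j ∈ C := by
    intro j
    induction j using Nat.strong_induction_on with
    | _ j ih =>
      rcases lt_or_ge j n with h | h
      · have hw : wz j ∈ C := by
          unfold wz
          apply Subgroup.list_prod_mem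
          intro x hx
          obtain ⟨k, hk, rfl⟩ := List.mem_map.1 hx
          exact ih k (List.mem_range.1 hk)
        have h1 : zp j ∈ C := by
          have := C.inv_mem (hsub (zp j)⁻¹ (Or.inr (Or.inr ⟨j, h, rfl⟩)))
          rwa [inv_inv] at this
        have e : (sz j : SG g n) = (wz j)⁻¹ * zp j * wz j := by unfold zp; group
        rw [e]
        exact C.mul_mem (C.mul_mem (C.inv_mem hw) h1) hw
      · rw [sz_big h]; exact C.one_mem
  rw [eq_top_iff, ← closure_gens, Subgroup.closure_le]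
  rintro x (⟨k, rfl | rfl⟩ | ⟨j, rfl⟩)
  · exact ha k
  · exact hb k
  · exact hz j

theorem sccW (hg : 2 ≤ g) : ∃ W : Set (SG g n), Subgroup.closure ({sa 0, sb 0} ∪ W) = ⊤ ∧
    (∀ w ∈ insert 1 W, ∀ m : ℤ, IsS (w * sb 0 * sa 0 ^ m)) ∧
    (∀ w ∈ insert 1 W, ∀ j : ℤ, IsS (sb 0 * sa 0 ^ j * w * sb 0 * sa 0 ^ (j + 1))) := by
  refine ⟨WW g n, ww_gen, ?_, ?_⟩
  · intro w hw m
    obtain ⟨T, t1, t2, t3⟩ := twA (g := g) (n := n) m
    have := (ww_isS hg w hw).act T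
    rwa [map_mul, ww_fix t3 w hw, t2, ← mul_assoc] at this
  · intro w hw j
    obtain ⟨A, a1, a2, a3⟩ := twA (g := g) (n := n) 1
    obtain ⟨B, b1, b2, b3⟩ := twB (g := g) (n := n) 1
    obtain ⟨T, t1, t2, t3⟩ := twA (g := g) (n := n) j
    have s1 : IsS (w * (sb 0 * (sa 0 * sb 0))) := by
      have := ((ww_isS hg w hw).act A).act B
      rw [map_mul, ww_fix a3 w hw, a2, zpow_one, map_mul, ww_fix b3 w hw, map_mul, b1, b2,
        zpow_one] at this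
      exact this
    have s2 := (s1.conj (sb 0)).act T
    have e : sb 0 * (w * (sb 0 * (sa 0 * sb 0))) * (sb 0)⁻¹ = sb 0 * w * (sb 0 * sa 0) := by group
    rw [e, map_mul, map_mul, map_mul, ww_fix t3 w hw, t1, t2] at s2
    have e2 : sb 0 * sa 0 ^ j * w * (sb 0 * sa 0 ^ j * sa 0) =
        sb 0 * sa 0 ^ j * w * sb 0 * sa 0 ^ (j + 1) := by
      rw [zpow_add, zpow_one]; simp only [mul_assoc]
    rwa [e2] at s2

end Pool.Agent.RCV
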