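import Pool.Agent.RCV.Crit
import Pool.Agent.RCV.SccW
import Pool.Agent.PWI.Sv

/-!
# RCV module Kill: homomorphisms to the integers vanish on point pushes

`gen_sg`: point stabilisers are generated by powers of nonseparating simple closed curves, if some
such curve acts as a full cycle, or as a cycle on all points but one, this point being moved by a dual
curve (`crit` applied to `ρ ∘ T`).
`kill_sg`: the homomorphisms vanish on these powers (`sv`), hence on the stabiliser, hence on all point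
pushes.
-/

namespace Pool.Agent.RCV

open Equiv Pool.Agent.PWI

variable {g n : ℕ}

theorem gen_sg (hg : 2 ≤ g) {X : Type*} (ρ : SG g n →* Perm X) (T : PMod g n)
    (hn : (∀ a b, (ρ (T.1 (sa 0))).SameCycle a b) ∨ ∃ p₀, ρ (T.1 (sa 0)) p₀ = p₀ ∧
      (∀ a b, a ≠ p₀ → b ≠ p₀ → (ρ (T.1 (sa 0))).SameCycle a b) ∧ ρ (T.1 (sb 0)) p₀ ≠ p₀)
    (p : X) (x : SG g n) (hx : ρ x p = p) :
    x ∈ Subgroup.closure {y : SG g n | ∃ s ∈ {s : SG g n | IsS s}, ∃ m : ℕ, y = s ^ m ∧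
      ρ y p = p} := by
  obtain ⟨W, hW, h1, h2⟩ := sccW (g := g) (n := n) hg
  have hT : T.1 ((T⁻¹).1 x) = x := by
    show T.1 ((T.1)⁻¹ x) = x
    simp
  have key := crit (ρ.comp (T.1 : SG g n →* SG g n)) {s : SG g n | IsS s}
    (fun s hs y => IsS.conj hs y) (sa 0) (sb 0) W hW isS_a0 h1 h2 hn p ((T⁻¹).1 x)
    (by show ρ (T.1 ((T⁻¹).1 x)) p = p; rw [hT]; exact hx)
  rw [← hT]
  generalize (T⁻¹).1 x = y at key
  induction key using Subgroup.closure_induction with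
  | mem y hy =>
    obtain ⟨s, hs, m, rfl, hp⟩ := hy
    exact Subgroup.subset_closure ⟨T.1 s, IsS.act hs T, m, map_pow _ _ _, hp⟩
  | one => rw [map_one]; exact Subgroup.one_mem _
  | mul x y _ _ hx hy => rw [map_mul]; exact Subgroup.mul_mem _ hx hy
  | inv x _ hx => rw [map_inv]; exact Subgroup.inv_mem _ hx

theorem kill_sg (hg : 3 ≤ g) {d : ℕ} (ρ : SG g n →* Perm (Fin d)) (T : PMod g n)
    (hn : (∀ a b, (ρ (T.1 (sa 0))).SameCycle a b) ∨ ∃ p₀, ρ (T.1 (sa 0)) p₀ = p₀ ∧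
      (∀ a b, a ≠ p₀ → b ≠ p₀ → (ρ (T.1 (sa 0))).SameCycle a b) ∧ ρ (T.1 (sb 0)) p₀ ≠ p₀)
    (i : Fin d) (H : Subgroup (PMod g n)) [H.FiniteIndex]
    (hH : ∀ (S : PMod g n) (m : ℕ), ρ (S.1 (sa 0) ^ m) i = i → push (S.1 (sa 0) ^ m) ∈ H)
    (f : H →* Multiplicative ℤ) (x : SG g n) (hx : push x ∈ H) : f ⟨push x, hx⟩ = 1 := by
  -- the stabiliser is pushed into `H` and killed
  have key : ∀ y : SG g n, ρ y i = i → ∃ h : push y ∈ H, f ⟨push y, h⟩ = 1 := by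
    intro y hy
    have hmem := gen_sg (by omega) ρ T hn i y hy
    clear hy
    induction hmem using Subgroup.closure_induction with
    | mem y hy =>
      obtain ⟨s, ⟨S, rfl⟩, m, rfl, hp⟩ := hy
      have h := hH S m hp
      refine ⟨h, ?_⟩
      have h' : push (S.1 (sa 0)) ^ m ∈ H := by rw [← map_pow]; exact h
      have := sv hg H f (S.1 (sa 0)) ⟨S, rfl⟩ m h'
      have e : (⟨push (S.1 (sa 0) ^ m), h⟩ : H) = ⟨push (S.1 (sa 0)) ^ m, h'⟩ :=
        Subtype.ext (map_pow _ _ _)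
      rw [e]; exact this
    | one =>
      have h : push (1 : SG g n) ∈ H := by rw [map_one]; exact H.one_mem
      refine ⟨h, ?_⟩
      have e : (⟨push (1 : SG g n), h⟩ : H) = 1 := Subtype.ext (map_one _)
      rw [e, map_one]
    | mul x y _ _ hx hy =>
      obtain ⟨h1, h2⟩ := hx
      obtain ⟨h3, h4⟩ := hy
      have h : push (x * y) ∈ H := by rw [map_mul]; exact H.mul_mem h1 h3
      refine ⟨h, ?_⟩
      have e : (⟨push (x * y), h⟩ : H) = ⟨push x, h1⟩ * ⟨push y, h3⟩ :=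
        Subtype.ext (map_mul _ _ _)
      rw [e, map_mul, h2, h4, one_mul]
    | inv x _ hx =>
      obtain ⟨h1, h2⟩ := hx
      have h : push x⁻¹ ∈ H := by rw [map_inv]; exact H.inv_mem h1
      refine ⟨h, ?_⟩
      have e : (⟨push x⁻¹, h⟩ : H) = (⟨push x, h1⟩)⁻¹ := Subtype.ext (map_inv _ _)
      rw [e, map_inv, h2, inv_one]
  -- a power of `x` is in the stabiliser
  have hN : Fintype.card (Perm (Fin d)) ≠ 0 := Fintype.card_ne_zero
  obtain ⟨h1, h2⟩ := key (x ^ Fintype.card (Perm (Fin d))) (by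
    rw [map_pow, pow_card_eq_one]; rfl)
  apply torsion_free hN
  have e : (⟨push x, hx⟩ : H) ^ Fintype.card (Perm (Fin d)) =
      ⟨push (x ^ Fintype.card (Perm (Fin d))), h1⟩ :=
    Subtype.ext (map_pow _ _ _).symm
  rw [← map_pow, e, h2]

/-- the three kinds of curves -/
theorem curve1 (k : ℤ) : ∃ T : PMod g n, T.1 (sa 0) = sa 0 * sb 0 ^ k ∧ T.1 (sb 0) = sb 0 := by
  obtain ⟨T, t1, t2, _⟩ := twB (g := g) (n := n) k
  exact ⟨T, t1, t2⟩

theorem curve2 (k : ℤ) : ∃ T : PMod g n, T.1 (sa 0) = (sb 0 * sa 0 ^ k)⁻¹ ∧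
    T.1 (sb 0) = sb 0 * sa 0 ^ k * sa 0 := by
  obtain ⟨A, a1, a2, _⟩ := twA (g := g) (n := n) 1
  obtain ⟨B, b1, b2, _⟩ := twB (g := g) (n := n) (-1)
  obtain ⟨T, t1, t2, _⟩ := twA (g := g) (n := n) k
  refine ⟨T * (A * B), ?_, ?_⟩
  · rw [Pool.Agent.PWI.act_mul, Pool.Agent.PWI.act_mul, b1, map_mul, map_zpow, a1, a2, zpow_one, map_mul, map_zpow, map_mul, t1, t2]
    group
  · rw [Pool.Agent.PWI.act_mul, Pool.Agent.PWI.act_mul, b2, a2, zpow_one, map_mul, t1, t2]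

end Pool.Agent.RCV
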