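import Mathlib

/-!
# RCV module Crit: the criterion (abstract group theory)

Let `N_p` be the closure in the statement.  `h N_p h⁻¹ = N_{hp}` (`S` is closed under conjugation); all
`γ^k` (`k : ℤ`) fixing `p`, and all conjugates of elements of `S` fixing `p`, are in `N_p`.
A standard element is `γ^m`, or (if `ρ γ` has the fixed point `p₀`) `δ γ^m` with `δ γ^m p = p₀`; every
point is `a p` for a standard `a`.  The elements `x` such that `a⁻¹ x a' ∈ N_p` whenever `a, a'` are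
standard and `a⁻¹ x a'` fixes `p` form a subgroup, and it contains all generators.
-/

namespace Pool.Agent.RCV

open Equiv

section

variable {G X : Type*} [Group G] (ρ : G →* Perm X) (S : Set G)

/-- the subgroup generated by the powers of elements of `S` which fix `p` -/
def NN (p : X) : Subgroup G :=
  Subgroup.closure {y : G | ∃ s ∈ S, ∃ m : ℕ, y = s ^ m ∧ ρ y p = p}

variable {ρ S}

theorem nn_zpow {p : X} {s : G} (hs : s ∈ S) (k : ℤ) (h : ρ (s ^ k) p = p) : s ^ k ∈ NN ρ S p := by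
  obtain ⟨m, rfl | rfl⟩ := Int.eq_nat_or_neg k
  · exact Subgroup.subset_closure ⟨s, hs, m, zpow_natCast s m, h⟩
  · have h' : ρ (s ^ m) p = p := by
      rw [zpow_neg, map_inv, Perm.inv_def, Equiv.symm_apply_eq, zpow_natCast] at h
      exact h.symm
    rw [zpow_neg, zpow_natCast]
    exact Subgroup.inv_mem _ (Subgroup.subset_closure ⟨s, hs, m, rfl, h'⟩)

theorem nn_conj (hS : ∀ s ∈ S, ∀ y : G, y * s * y⁻¹ ∈ S) {p : X} {s : G} (hs : s ∈ S) (k : ℤ) (y : G)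
    (h : ρ (y * s ^ k * y⁻¹) p = p) : y * s ^ k * y⁻¹ ∈ NN ρ S p := by
  rw [← conj_zpow] at h ⊢
  exact nn_zpow (hS s hs y) k h

theorem nn_conj1 (hS : ∀ s ∈ S, ∀ y : G, y * s * y⁻¹ ∈ S) {p : X} {s : G} (hs : s ∈ S) (y : G)
    (h : ρ (y * s * y⁻¹) p = p) : y * s * y⁻¹ ∈ NN ρ S p := by
  have := nn_conj (ρ := ρ) hS hs 1 y (by simpa using h)
  simpa using this

/-- moving the base point -/
theorem nn_move (hS : ∀ s ∈ S, ∀ y : G, y * s * y⁻¹ ∈ S) {p : X} (h : G) {x : G}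
    (hx : x ∈ NN ρ S p) : h * x * h⁻¹ ∈ NN ρ S (ρ h p) := by
  unfold NN at hx
  induction hx using Subgroup.closure_induction with
  | mem y hy =>
    obtain ⟨s, hs, m, rfl, hp⟩ := hy
    have e : h * s ^ m * h⁻¹ = (h * s * h⁻¹) ^ m := conj_pow.symm
    refine Subgroup.subset_closure ⟨h * s * h⁻¹, hS s hs h, m, e, ?_⟩
    rw [map_mul, map_mul, map_inv, Perm.mul_apply, Perm.mul_apply, Perm.inv_def,
      Equiv.symm_apply_apply, hp]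
  | one => simp
  | mul x y _ _ hx hy =>
    have e : h * (x * y) * h⁻¹ = (h * x * h⁻¹) * (h * y * h⁻¹) := by group
    rw [e]
    exact Subgroup.mul_mem _ hx hy
  | inv x _ hx =>
    have e : h * x⁻¹ * h⁻¹ = (h * x * h⁻¹)⁻¹ := by group
    rw [e]
    exact Subgroup.inv_mem _ hx

/-- The general scheme: a set `A` of standard elements. -/
theorem scheme {p : X} (A : Set G) (hA1 : (1 : G) ∈ A) (hA : ∀ q : X, ∃ a ∈ A, ρ a p = q)
    (hone : ∀ a ∈ A, ∀ a' ∈ A, ρ a p = ρ a' p → a⁻¹ * a' ∈ NN ρ S p)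
    (B : Set G) (hB : Subgroup.closure B = ⊤)
    (hgen : ∀ x ∈ B, ∀ a ∈ A, ∀ a' ∈ A, ρ a p = ρ (x * a') p → a⁻¹ * x * a' ∈ NN ρ S p)
    (x : G) (hx : ρ x p = p) : x ∈ NN ρ S p := by
  let T : Subgroup G :=
    { carrier := {x | ∀ a ∈ A, ∀ a' ∈ A, ρ a p = ρ (x * a') p → a⁻¹ * x * a' ∈ NN ρ S p}
      one_mem' := by
        intro a ha a' ha' h
        rw [one_mul] at h
        rw [mul_one]
        exact hone a ha a' ha' h
      mul_mem' := by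
        intro x y hx hy a ha a' ha' h
        obtain ⟨a'', ha'', h''⟩ := hA (ρ (y * a') p)
        have e : a⁻¹ * (x * y) * a' = (a⁻¹ * x * a'') * (a''⁻¹ * y * a') := by group
        rw [e]
        refine Subgroup.mul_mem _ (hx a ha a'' ha'' ?_) (hy a'' ha'' a' ha' h'')
        rw [h, mul_assoc, map_mul ρ x, map_mul ρ x, Perm.mul_apply, Perm.mul_apply, h'']
      inv_mem' := by
        intro x hx a ha a' ha' h
        have e : a⁻¹ * x⁻¹ * a' = (a'⁻¹ * x * a)⁻¹ := by group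
        rw [e]
        refine Subgroup.inv_mem _ (hx a' ha' a ha ?_)
        rw [map_mul, Perm.mul_apply, h, map_mul, Perm.mul_apply, map_inv, Perm.inv_def,
          Equiv.apply_symm_apply] }
  have hT : T = ⊤ := by
    rw [eq_top_iff, ← hB, Subgroup.closure_le]
    exact fun x hx => hgen x hx
  have hxT : x ∈ T := by rw [hT]; exact Subgroup.mem_top x
  have := hxT 1 hA1 1 hA1 (by rw [mul_one, hx, map_one, Perm.one_apply])
  simpa using this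

end

section

variable {G X : Type*} [Group G] (ρ : G →* Perm X) (S : Set G)

theorem act_mul (x y : G) (p : X) : ρ (x * y) p = ρ x (ρ y p) := by
  rw [map_mul, Perm.mul_apply]

theorem act_inv_iff (x : G) (p q : X) : ρ x⁻¹ p = q ↔ ρ x q = p := by
  rw [map_inv, Perm.inv_def, Equiv.symm_apply_eq]
  exact eq_comm

theorem act_zpow_fix {x : G} {p : X} (h : ρ x p = p) (k : ℤ) : ρ (x ^ k) p = p := by
  rw [map_zpow]
  exact Function.IsFixedPt.perm_zpow h k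

theorem sameCycle_iff (x : G) (p q : X) : (ρ x).SameCycle p q ↔ ∃ k : ℤ, ρ (x ^ k) p = q := by
  constructor
  · rintro ⟨k, hk⟩
    exact ⟨k, by rw [map_zpow]; exact hk⟩
  · rintro ⟨k, hk⟩
    exact ⟨k, by rw [map_zpow] at hk; exact hk⟩

/-- the new generators -/
theorem gen_change (γ δ : G) (W : Set G) (hgen : Subgroup.closure ({γ, δ} ∪ W) = ⊤) :
    Subgroup.closure (insert γ {x | ∃ w ∈ insert 1 W, x = w * δ}) = ⊤ := by
  rw [eq_top_iff, ← hgen, Subgroup.closure_le]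
  have hδ : δ ∈ Subgroup.closure (insert γ {x | ∃ w ∈ insert 1 W, x = w * δ}) :=
    Subgroup.subset_closure (Or.inr ⟨1, Set.mem_insert _ _, (one_mul δ).symm⟩)
  rintro x ((rfl | rfl) | hx)
  · exact Subgroup.subset_closure (Set.mem_insert _ _)
  · exact hδ
  · have h : x * δ ∈ Subgroup.closure (insert γ {x | ∃ w ∈ insert 1 W, x = w * δ}) :=
      Subgroup.subset_closure (Or.inr ⟨x, Set.mem_insert_of_mem _ hx, rfl⟩)
    have := Subgroup.mul_mem _ h (Subgroup.inv_mem _ hδ)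
    simpa using this

variable {ρ S}

/-- step from the part of `p` to itself -/
theorem step_a (hS : ∀ s ∈ S, ∀ y : G, y * s * y⁻¹ ∈ S) {γ x : G} {p : X}
    (hx : ∀ m : ℤ, x * γ ^ m ∈ S) (m m' : ℤ)
    (h : ρ (γ ^ m) p = ρ (x * γ ^ m') p) : (γ ^ m)⁻¹ * x * γ ^ m' ∈ NN ρ S p := by
  have e : (γ ^ m)⁻¹ * x * γ ^ m' = (γ ^ m)⁻¹ * (x * γ ^ (m' - m)) * ((γ ^ m)⁻¹)⁻¹ := by
    have : γ ^ m' = γ ^ (m' - m) * γ ^ m := by rw [← zpow_add]; congr 1; ring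
    rw [this]; group
  rw [e]
  apply nn_conj1 hS (hx _)
  rw [← e, mul_assoc, act_mul, ← h, act_inv_iff]

theorem pow_step {γ : G} {p : X} (hγ : γ ∈ S) (m m' : ℤ)
    (h : ρ (γ ^ m) p = ρ (γ ^ m') p) : (γ ^ m)⁻¹ * γ ^ m' ∈ NN ρ S p := by
  have e : (γ ^ m)⁻¹ * γ ^ m' = γ ^ (-m + m') := by rw [zpow_add, zpow_neg]
  rw [e]
  apply nn_zpow hγ
  rw [← e, act_mul, ← h, act_inv_iff]

theorem crit_full (hS : ∀ s ∈ S, ∀ y : G, y * s * y⁻¹ ∈ S) (γ δ : G) (W : Set G)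
    (hgen : Subgroup.closure ({γ, δ} ∪ W) = ⊤) (hγ : γ ∈ S)
    (h1 : ∀ w ∈ insert 1 W, ∀ m : ℤ, w * δ * γ ^ m ∈ S)
    (hn : ∀ a b, (ρ γ).SameCycle a b) (p : X) (x : G) (hx : ρ x p = p) :
    x ∈ NN ρ S p := by
  refine scheme (Set.range fun m : ℤ => γ ^ m) ⟨0, zpow_zero γ⟩ ?_ ?_ _
    (gen_change γ δ W hgen) ?_ x hx
  · intro q
    obtain ⟨k, hk⟩ := (sameCycle_iff ρ γ p q).1 (hn p q)
    exact ⟨γ ^ k, ⟨k, rfl⟩, hk⟩
  · rintro _ ⟨m, rfl⟩ _ ⟨m', rfl⟩ h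
    exact pow_step hγ m m' h
  · rintro y (rfl | ⟨w, hw, rfl⟩) _ ⟨m, rfl⟩ _ ⟨m', rfl⟩ h
    · have e : (y ^ m)⁻¹ * y * y ^ m' = (y ^ m)⁻¹ * y ^ (1 + m') := by
        rw [zpow_add, zpow_one, mul_assoc]
      show (y ^ m)⁻¹ * y * y ^ m' ∈ NN ρ S p
      rw [e]
      apply pow_step hγ
      rw [h, zpow_add, zpow_one]
    · exact step_a hS (h1 w hw) m m' h

/-- the elements of type (b), first form -/
theorem type_b1 (hS : ∀ s ∈ S, ∀ y : G, y * s * y⁻¹ ∈ S) {γ δ w : G} {p p₀ : X} (hγ : γ ∈ S)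
    (h2 : ∀ j : ℤ, δ * γ ^ j * w * δ * γ ^ (j + 1) ∈ S) (hp₀ : ρ γ p₀ = p₀) (i j m : ℤ)
    (ha : ρ (w * δ * γ ^ m) p = p₀) (hb : ρ (γ ^ i * δ * γ ^ j * w * δ * γ ^ m) p = p) :
    γ ^ i * δ * γ ^ j * w * δ * γ ^ m ∈ NN ρ S p := by
  have hfix : ∀ j' : ℤ, ρ (γ ^ i * δ * γ ^ j' * w * δ * γ ^ m) p = ρ (γ ^ i * δ) p₀ := by
    intro j'
    have e : γ ^ i * δ * γ ^ j' * w * δ * γ ^ m = γ ^ i * δ * (γ ^ j' * (w * δ * γ ^ m)) := by
      simp only [mul_assoc]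
    rw [e, act_mul, act_mul ρ (γ ^ j'), ha, act_zpow_fix ρ hp₀]
  set j' : ℤ := m + i - 1 with hj'
  have hmem : γ ^ i * δ * γ ^ j' * w * δ * γ ^ m ∈ NN ρ S p := by
    have e : γ ^ i * δ * γ ^ j' * w * δ * γ ^ m =
        γ ^ i * (δ * γ ^ j' * w * δ * γ ^ (j' + 1)) * (γ ^ i)⁻¹ := by
      have : γ ^ (j' + 1) = γ ^ m * γ ^ i := by rw [← zpow_add]; congr 1; rw [hj']; ring
      rw [this]; simp only [mul_assoc, mul_inv_cancel, mul_one]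
    rw [e]
    apply nn_conj1 hS (h2 j')
    rw [← e, hfix j', ← hfix j, hb]
  have e : γ ^ i * δ * γ ^ j * w * δ * γ ^ m =
      (γ ^ i * δ) * γ ^ (j - j') * (γ ^ i * δ)⁻¹ * (γ ^ i * δ * γ ^ j' * w * δ * γ ^ m) := by
    have : γ ^ j = γ ^ (j - j') * γ ^ j' := by rw [← zpow_add]; congr 1; ring
    rw [this]; simp only [mul_assoc, inv_mul_cancel_left, mul_inv_rev]
  rw [e]
  refine Subgroup.mul_mem _ (nn_conj hS hγ _ _ ?_) hmem
  have hp : ρ (γ ^ i * δ)⁻¹ p = p₀ := by rw [act_inv_iff, ← hfix j, hb]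
  rw [act_mul, hp, act_mul, act_zpow_fix ρ hp₀, ← hfix j, hb]

/-- the elements of type (b), second form -/
theorem type_b2 (hS : ∀ s ∈ S, ∀ y : G, y * s * y⁻¹ ∈ S) {γ δ w : G} {p p₀ : X} (hγ : γ ∈ S)
    (h2 : ∀ j : ℤ, δ * γ ^ j * w * δ * γ ^ (j + 1) ∈ S) (hp₀ : ρ γ p₀ = p₀) (i j m : ℤ)
    (ha : ρ (δ * γ ^ m) p = p₀) (hb : ρ (γ ^ i * w * δ * γ ^ j * δ * γ ^ m) p = p) :
    γ ^ i * w * δ * γ ^ j * δ * γ ^ m ∈ NN ρ S p := by
  have hfix : ∀ j' : ℤ, ρ (γ ^ i * w * δ * γ ^ j' * δ * γ ^ m) p = ρ (γ ^ i * w * δ) p₀ := by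
    intro j'
    have e : γ ^ i * w * δ * γ ^ j' * δ * γ ^ m = γ ^ i * w * δ * (γ ^ j' * (δ * γ ^ m)) := by
      simp only [mul_assoc]
    rw [e, act_mul, act_mul ρ (γ ^ j'), ha, act_zpow_fix ρ hp₀]
  set j' : ℤ := m + i + 1 with hj'
  have hmem : γ ^ i * w * δ * γ ^ j' * δ * γ ^ m ∈ NN ρ S p := by
    have e : γ ^ i * w * δ * γ ^ j' * δ * γ ^ m =
        (γ ^ i * (δ * γ ^ (m + i))⁻¹) * (δ * γ ^ (m + i) * w * δ * γ ^ (m + i + 1)) *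
          (γ ^ i * (δ * γ ^ (m + i))⁻¹)⁻¹ := by
      have : γ ^ (m + i) = γ ^ m * γ ^ i := zpow_add _ _ _
      rw [hj']
      simp only [mul_inv_rev, inv_inv, this]
      group
    rw [e]
    apply nn_conj1 hS (h2 _)
    rw [← e, hfix j', ← hfix j, hb]
  have e : γ ^ i * w * δ * γ ^ j * δ * γ ^ m =
      (γ ^ i * w * δ) * γ ^ (j - j') * (γ ^ i * w * δ)⁻¹ *
        (γ ^ i * w * δ * γ ^ j' * δ * γ ^ m) := by
    have : γ ^ j = γ ^ (j - j') * γ ^ j' := by rw [← zpow_add]; congr 1; ring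
    rw [this]; simp only [mul_assoc, inv_mul_cancel_left, mul_inv_rev]
  rw [e]
  refine Subgroup.mul_mem _ (nn_conj hS hγ _ _ ?_) hmem
  have hp : ρ (γ ^ i * w * δ)⁻¹ p = p₀ := by rw [act_inv_iff, ← hfix j, hb]
  rw [act_mul, hp, act_mul, act_zpow_fix ρ hp₀, ← hfix j, hb]

/-- type (c) -/
theorem type_c (hS : ∀ s ∈ S, ∀ y : G, y * s * y⁻¹ ∈ S) {γ δ w : G} {W : Set G} {p p₀ : X}
    (hγ : γ ∈ S) (hw : w ∈ insert 1 W)
    (h2 : ∀ w ∈ insert 1 W, ∀ j : ℤ, δ * γ ^ j * w * δ * γ ^ (j + 1) ∈ S) (hp₀ : ρ γ p₀ = p₀)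
    (hO : ∀ a b, a ≠ p₀ → b ≠ p₀ → (ρ γ).SameCycle a b) (hδ : ρ δ p₀ ≠ p₀) (hpp : p ≠ p₀)
    (m m' : ℤ) (ha : ρ (w * δ * γ ^ m') p = p₀) (hb : ρ (δ * γ ^ m) p = p₀) :
    (δ * γ ^ m)⁻¹ * (w * δ) * γ ^ m' ∈ NN ρ S p := by
  obtain ⟨i, hi⟩ := (sameCycle_iff ρ γ _ _).1 (hO (ρ δ p₀) p hδ hpp)
  have h1 : γ ^ i * δ * γ ^ (0 : ℤ) * w * δ * γ ^ m' ∈ NN ρ S p := by
    apply type_b1 hS hγ (h2 w hw) hp₀ i 0 m' ha
    have e : γ ^ i * δ * γ ^ (0 : ℤ) * w * δ * γ ^ m' = γ ^ i * (δ * (w * δ * γ ^ m')) := by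
      simp only [zpow_zero, mul_one, mul_assoc]
    rw [e, act_mul, act_mul ρ δ, ha, hi]
  have h3 : γ ^ i * δ * γ ^ (0 : ℤ) * 1 * δ * γ ^ m ∈ NN ρ S p := by
    apply type_b1 hS hγ (h2 1 (Set.mem_insert _ _)) hp₀ i 0 m (by rw [one_mul]; exact hb)
    have e : γ ^ i * δ * γ ^ (0 : ℤ) * 1 * δ * γ ^ m = γ ^ i * (δ * (δ * γ ^ m)) := by
      simp only [zpow_zero, mul_one, mul_assoc]
    rw [e, act_mul, act_mul ρ δ, hb, hi]
  have e : (δ * γ ^ m)⁻¹ * (w * δ) * γ ^ m' =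
      (γ ^ i * δ * γ ^ (0 : ℤ) * 1 * δ * γ ^ m)⁻¹ * (γ ^ i * δ * γ ^ (0 : ℤ) * w * δ * γ ^ m') := by
    simp only [zpow_zero, mul_one, mul_assoc, mul_inv_rev, inv_mul_cancel_left]
  rw [e]
  exact Subgroup.mul_mem _ (Subgroup.inv_mem _ h3) h1

theorem crit_near_aux (hS : ∀ s ∈ S, ∀ y : G, y * s * y⁻¹ ∈ S) (γ δ : G) (W : Set G)
    (hgen : Subgroup.closure ({γ, δ} ∪ W) = ⊤) (hγ : γ ∈ S)
    (h1 : ∀ w ∈ insert 1 W, ∀ m : ℤ, w * δ * γ ^ m ∈ S)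
    (h2 : ∀ w ∈ insert 1 W, ∀ j : ℤ, δ * γ ^ j * w * δ * γ ^ (j + 1) ∈ S) {p₀ : X}
    (hp₀ : ρ γ p₀ = p₀) (hO : ∀ a b, a ≠ p₀ → b ≠ p₀ → (ρ γ).SameCycle a b) (hδ : ρ δ p₀ ≠ p₀)
    (p : X) (hpp : p ≠ p₀) (x : G) (hx : ρ x p = p) : x ∈ NN ρ S p := by
  -- powers of `γ` do not move `p` to `p₀`
  have hne : ∀ m : ℤ, ρ (γ ^ m) p ≠ p₀ := by
    intro m h
    have h' : ρ (γ ^ m)⁻¹ p₀ = p := by rw [act_inv_iff]; exact h
    rw [← zpow_neg, act_zpow_fix ρ hp₀] at h'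
    exact hpp h'.symm
  have hδ' : ρ δ⁻¹ p₀ ≠ p₀ := by
    intro h
    rw [act_inv_iff] at h
    exact hδ h
  refine scheme {a | (∃ m : ℤ, a = γ ^ m) ∨ ∃ m : ℤ, a = δ * γ ^ m ∧ ρ (δ * γ ^ m) p = p₀}
    (Or.inl ⟨0, (zpow_zero γ).symm⟩) ?_ ?_ _ (gen_change γ δ W hgen) ?_ x hx
  · intro q
    by_cases hq : q = p₀
    · obtain ⟨k, hk⟩ := (sameCycle_iff ρ γ _ _).1 (hO p (ρ δ⁻¹ p₀) hpp hδ')
      have : ρ (δ * γ ^ k) p = p₀ := by rw [act_mul, hk, ← act_inv_iff]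
      exact ⟨δ * γ ^ k, Or.inr ⟨k, rfl, this⟩, by rw [this, hq]⟩
    · obtain ⟨k, hk⟩ := (sameCycle_iff ρ γ _ _).1 (hO p q hpp hq)
      exact ⟨γ ^ k, Or.inl ⟨k, rfl⟩, hk⟩
  · rintro a (⟨m, rfl⟩ | ⟨m, rfl, hm⟩) a' (⟨m', rfl⟩ | ⟨m', rfl, hm'⟩) h
    · exact pow_step hγ m m' h
    · exact absurd (h.trans hm') (hne m)
    · exact absurd (h.symm.trans hm) (hne m')
    · have e : (δ * γ ^ m)⁻¹ * (δ * γ ^ m') = (γ ^ m)⁻¹ * γ ^ m' := by group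
      rw [e]
      apply pow_step hγ
      rw [act_mul, act_mul] at h
      exact (ρ δ).injective h
  · rintro y (rfl | ⟨w, hw, rfl⟩) a (⟨m, rfl⟩ | ⟨m, rfl, hm⟩) a' (⟨m', rfl⟩ | ⟨m', rfl, hm'⟩) h
    · -- γ, O to O
      have e : (y ^ m)⁻¹ * y * y ^ m' = (y ^ m)⁻¹ * y ^ (1 + m') := by
        rw [zpow_add, zpow_one, mul_assoc]
      rw [e]
      apply pow_step hγ
      rw [h, zpow_add, zpow_one]
    · rw [act_mul, hm', hp₀] at h
      exact absurd h (hne m)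
    · rw [hm] at h
      have : ρ (y ^ (1 + m')) p = p₀ := by rw [zpow_add, zpow_one]; exact h.symm
      exact absurd this (hne _)
    · have e : (δ * y ^ m)⁻¹ * y * (δ * y ^ m') =
          ((δ * y ^ m)⁻¹ * y ^ (1 : ℤ) * ((δ * y ^ m)⁻¹)⁻¹) * ((y ^ m)⁻¹ * y ^ m') := by
        simp only [zpow_one, inv_inv]; group
      rw [e]
      have hq : ρ (y ^ m) p = ρ (y ^ m') p := by
        rw [← hm', act_mul, act_mul] at hm
        exact (ρ δ).injective hm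
      refine Subgroup.mul_mem _ (nn_conj hS hγ _ _ ?_) (pow_step hγ m m' hq)
      rw [inv_inv, act_mul, hm, zpow_one, act_mul, hp₀, act_inv_iff, hm]
    · exact step_a hS (h1 w hw) m m' h
    · -- p₀ to O
      have h3 : γ ^ (-m) * w * δ * γ ^ (0 : ℤ) * δ * γ ^ m' ∈ NN ρ S p := by
        apply type_b2 hS hγ (h2 w hw) hp₀ (-m) 0 m' hm'
        have e : γ ^ (-m) * w * δ * γ ^ (0 : ℤ) * δ * γ ^ m' =
            (γ ^ m)⁻¹ * (w * δ * (δ * γ ^ m')) := by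
          simp only [zpow_zero, mul_one, mul_assoc, zpow_neg]
        rw [e, act_mul, ← h, act_inv_iff]
      have e : (γ ^ m)⁻¹ * (w * δ) * (δ * γ ^ m') =
          γ ^ (-m) * w * δ * γ ^ (0 : ℤ) * δ * γ ^ m' := by
        simp only [zpow_zero, mul_one, mul_assoc, zpow_neg]
      rw [e]
      exact h3
    · rw [hm] at h
      exact type_c hS hγ hw h2 hp₀ hO hδ hpp m m' h.symm hm
    · have e : (δ * γ ^ m)⁻¹ * (w * δ) * (δ * γ ^ m') =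
          ((δ * γ ^ m)⁻¹ * (w * δ) * ((δ * γ ^ m)⁻¹)⁻¹) * ((γ ^ m)⁻¹ * γ ^ m') := by
        simp only [inv_inv]; group
      rw [e]
      have hq : ρ (γ ^ m) p = ρ (γ ^ m') p := by
        have := hm
        rw [← hm', act_mul, act_mul] at this
        exact (ρ δ).injective this
      have hs : w * δ ∈ S := by simpa using h1 w hw 0
      refine Subgroup.mul_mem _ (nn_conj1 hS hs _ ?_) (pow_step hγ m m' hq)
      rw [hm, act_mul ρ (w * δ), hm'] at h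
      rw [inv_inv, act_mul, hm, act_mul, ← h, act_inv_iff, hm]

end

/-- The criterion. -/
theorem crit {G X : Type*} [Group G] (ρ : G →* Perm X) (S : Set G)
    (hS : ∀ s ∈ S, ∀ y : G, y * s * y⁻¹ ∈ S) (γ δ : G) (W : Set G)
    (hgen : Subgroup.closure ({γ, δ} ∪ W) = ⊤) (hγ : γ ∈ S)
    (h1 : ∀ w ∈ insert 1 W, ∀ m : ℤ, w * δ * γ ^ m ∈ S)
    (h2 : ∀ w ∈ insert 1 W, ∀ j : ℤ, δ * γ ^ j * w * δ * γ ^ (j + 1) ∈ S)
    (hn : (∀ a b, (ρ γ).SameCycle a b) ∨ ∃ p₀, ρ γ p₀ = p₀ ∧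
      (∀ a b, a ≠ p₀ → b ≠ p₀ → (ρ γ).SameCycle a b) ∧ ρ δ p₀ ≠ p₀)
    (p : X) (x : G) (hx : ρ x p = p) :
    x ∈ Subgroup.closure {y : G | ∃ s ∈ S, ∃ m : ℕ, y = s ^ m ∧ ρ y p = p} := by
  rcases hn with hn | ⟨p₀, hp₀, hO, hδ⟩
  · exact crit_full hS γ δ W hgen hγ h1 hn p x hx
  · by_cases hpp : p = p₀
    · have hq : ρ δ⁻¹ p ≠ p₀ := by
        intro h
        rw [act_inv_iff, hpp] at h
        exact hδ h
      have hx' : ρ (δ⁻¹ * x * δ) (ρ δ⁻¹ p) = ρ δ⁻¹ p := by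
        rw [← act_mul]
        have e : δ⁻¹ * x * δ * δ⁻¹ = δ⁻¹ * x := by group
        rw [e, act_mul, hx]
      have h3 := nn_move hS δ (crit_near_aux hS γ δ W hgen hγ h1 h2 hp₀ hO hδ _ hq _ hx')
      have e : δ * (δ⁻¹ * x * δ) * δ⁻¹ = x := by group
      have e2 : ρ δ (ρ δ⁻¹ p) = p := by rw [← act_mul, mul_inv_cancel, map_one, Perm.one_apply]
      rw [e, e2] at h3
      exact h3
    · exact crit_near_aux hS γ δ W hgen hγ h1 h2 hp₀ hO hδ p hpp x hx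

end Pool.Agent.RCV
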